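import Mathlib

/-!
# Density hypothesis in the mean (MP_4467b5_nt): definitions

Zeros of the Riemann zeta function are counted with multiplicity.
-/

set_option autoImplicit false

open Complex Metric MeasureTheory

namespace Pool.Agent.helper84.DM

/-- The multiplicity of a zero of the Riemann zeta function. -/
noncomputable def mult (ρ : ℂ) : ℕ := analyticOrderNatAt riemannZeta ρ

/-- The zeros of the Riemann zeta function with imaginary part in `(t, t + H]`. -/
def win (t H : ℝ) : Set ℂ := {ρ : ℂ | riemannZeta ρ = 0 ∧ t < ρ.im ∧ ρ.im ≤ t + H}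

/-- The number of zeros with imaginary part in `(t, t + H]`, with multiplicity. -/
noncomputable def count (t H : ℝ) : ℝ := ∑ᶠ ρ ∈ win t H, (mult ρ : ℝ)

/-- The sum of the distances `|Re ρ - 1/2|` from the critical line, over all the zeros `ρ` with
imaginary part in `(t, t + H]`, with multiplicity. -/
noncomputable def total (t H : ℝ) : ℝ := ∑ᶠ ρ ∈ win t H, (mult ρ : ℝ) * |ρ.re - 1 / 2|

/-- The average distance from the critical line of the zeros with imaginary part in `(t, t + H]`
(it is `0` when there is no such zero). -/
noncomputable def avgDist (t H : ℝ) : ℝ := total t H / count t H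

/-- The sum of `Re ρ - 1/2` over the zeros to the right of the critical line. -/
noncomputable def half (t H : ℝ) : ℝ :=
  ∑ᶠ ρ ∈ {ρ : ℂ | ρ ∈ win t H ∧ 1 / 2 < ρ.re}, (mult ρ : ℝ) * (ρ.re - 1 / 2)

/-- The zeros with imaginary part in `(t, t + H]` as a finite set (for `0 ≤ t`). -/
noncomputable def zs (t H : ℝ) : Finset ℂ := by
  classical exact if h : (win t H).Finite then h.toFinset else ∅

/-- The factor of the functional equation `ζ(1 - s) = X(s) ζ(s)`. -/
noncomputable def X (s : ℂ) : ℂ :=
  2 * (2 * (Real.pi : ℂ)) ^ (-s) * Complex.Gamma s * Complex.cos ((Real.pi : ℂ) * s / 2)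

/-- The number of divisors, as a real number. -/
noncomputable def d (n : ℕ) : ℝ := (n.divisors.card : ℝ)

/-- The kernel `T^w e^(w^2) / w` at `w = c + i v`. -/
noncomputable def ker (T c v : ℝ) : ℂ :=
  (T : ℂ) ^ ((c : ℂ) + v * I) * Complex.exp (((c : ℂ) + v * I) ^ 2) / ((c : ℂ) + v * I)

/-- Green's function of the disc of radius `R` touching the line `Re = α`, pole at distance `a`
from the line; `x = Re ρ - α`, `u` = vertical distance. -/
noncomputable def grn (R a x u : ℝ) : ℝ :=
  Real.log (((a + (1 - a / R) * x) ^ 2 + ((1 - a / R) * u) ^ 2) / ((a - x) ^ 2 + u ^ 2)) / 2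

/-- Centre of the disc of radius `R` touching the line `Re = α` at height `t`. -/
noncomputable def cen (α R t : ℝ) : ℂ := ((α + R : ℝ) : ℂ) + t * I

/-- The base point at distance `a` from the line `Re = α` at height `t`. -/
noncomputable def bas (α a t : ℝ) : ℂ := ((α + a : ℝ) : ℂ) + t * I

/-- Poisson average of `|ζ|^4` over the circle. -/
noncomputable def Psi (α a R t : ℝ) : ℝ :=
  Real.circleAverage
    (fun z => poissonKernel (cen α R t) (bas α a t) z * ‖riemannZeta z‖ ^ 4) (cen α R t) R

/-- Poisson average of `log |ζ|` over the circle. -/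
noncomputable def Lam (α a R t : ℝ) : ℝ :=
  Real.circleAverage
    (fun z => poissonKernel (cen α R t) (bas α a t) z * Real.log ‖riemannZeta z‖) (cen α R t) R

end Pool.Agent.helper84.DM
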